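import Pool.Agent.T2H69.TT.Abstract
import Pool.Agent.T2H69.TT.Derived

/-!
# Tensor-vanishing maps out of the unit in the bounded derived category

`C` is an abelian braided rigid monoidal category over a field `k`, with bilinear tensor product
and enough projectives, whose unit object has endomorphism ring `k`; every finite symmetric tensor
category is one. `DerivedCategory.Bounded C` is the bounded derived category of `C` (the full
subcategory of the bounded objects of the derived category). It is given any bilinear monoidal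
structure extending the one of `C`, that is, one for which the inclusion `heart C` of `C` in degree
zero is a strong monoidal functor; the usual derived tensor product is one.

The proof. Let `P` be a nonzero projective object of `C`, placed in degree zero. If `H⁰(g) = 0`
then `g ⊗ P = 0`, because `g ⊗ P` is computed from the composite `P ⊗ ᘁP ⟶ 𝟙 ⟶ Y` and a morphism
from a projective object in degree zero is detected by `H⁰`. If `H⁰(g) ≠ 0` then `H⁰(g)` is a
monomorphism, as the unit is simple, so `𝟙 ⟶ P ⊗ Pᘁ` extends along `H⁰(g)`, as `P ⊗ Pᘁ` is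
injective; a morphism `H⁰(Y) ⟶ P ⊗ Pᘁ` lifts to `Y ⟶ P ⊗ Pᘁ` in the derived category, so
`g ⊗ P` is a split monomorphism, and `f ⊗ g = 0` gives `f ⊗ P = 0`.
-/

universe w v u w'

open CategoryTheory MonoidalCategory Limits Category DerivedCategory

namespace Pool.Agent.Results.MP_93437d_al.TensorVanishing

section Heart

variable (C : Type u) [Category.{v} C] [Abelian C] [HasDerivedCategory.{w} C]

lemma bounded_single (X : C) :
    DerivedCategory.TStructure.t.bounded ((singleFunctor C 0).obj X) := by
  constructor
  · exact ⟨0, ⟨(inferInstance : ((singleFunctor C 0).obj X).IsGE 0).ge⟩⟩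
  · exact ⟨0, ⟨(inferInstance : ((singleFunctor C 0).obj X).IsLE 0).le⟩⟩

/-- The inclusion of an abelian category in its bounded derived category, in degree zero. -/
noncomputable def heart : C ⥤ DerivedCategory.Bounded C :=
  ObjectProperty.lift _ (singleFunctor C 0) (bounded_single C)

end Heart

/-- Let `C` be a finite symmetric tensor category over a field `k`, and `D` its bounded derived
category with the tensor product extending that of `C`. If `f : 𝟙 ⟶ X` and `g : 𝟙 ⟶ Y` in `D`
satisfy `f ⊗ g = 0`, then there is a nonzero object `Z` of `D` with `f ⊗ Z = 0` or `g ⊗ Z = 0`. -/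
theorem result {k : Type w'} [Field k] {C : Type u} [Category.{v} C] [Abelian C] [Linear k C]
    [MonoidalCategory C] [MonoidalPreadditive C] [BraidedCategory C] [RigidCategory C]
    [EnoughProjectives C]
    (hEnd : Function.Bijective (fun c : k => c • 𝟙 (𝟙_ C)))
    [HasDerivedCategory.{w} C]
    [MonoidalCategory (DerivedCategory.Bounded C)]
    [MonoidalPreadditive (DerivedCategory.Bounded C)]
    [(heart C).Monoidal]
    {X Y : DerivedCategory.Bounded C}
    (f : 𝟙_ (DerivedCategory.Bounded C) ⟶ X) (g : 𝟙_ (DerivedCategory.Bounded C) ⟶ Y)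
    (hfg : f ⊗ₘ g = 0) :
    ∃ Z : DerivedCategory.Bounded C, ¬ IsZero Z ∧ (f ▷ Z = 0 ∨ g ▷ Z = 0) := by
  -- the unit is nonzero, with trivial idempotents
  have hne : ¬ IsZero (𝟙_ C) := by
    intro h0
    have h1 : (1 : k) • 𝟙 (𝟙_ C) = (0 : k) • 𝟙 (𝟙_ C) := h0.eq_of_src _ _
    exact one_ne_zero (hEnd.1 h1)
  have hidem : ∀ e : 𝟙_ C ⟶ 𝟙_ C, e ≫ e = e → e = 0 ∨ e = 𝟙 _ :=
    Pool.Agent.T2H69.TT.idem_of_scalar k hne fun e => by
      obtain ⟨c, hc⟩ := hEnd.2 e
      exact ⟨c, hc.symm⟩
  -- a nonzero projective object
  let P : C := Projective.over (𝟙_ C)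
  have hP : ¬ IsZero P := by
    intro h0
    apply hne
    have : Epi (Projective.π (𝟙_ C)) := inferInstance
    have h1 : Projective.π (𝟙_ C) = 0 := h0.eq_of_src _ _
    exact Pool.Agent.T2H69.TT.isZero_of_epi_zero _ h1
  let S : C ⥤ DerivedCategory.Bounded C := heart C
  let H : DerivedCategory.Bounded C ⥤ C := DerivedCategory.Bounded.ι ⋙ homologyFunctor C 0
  let e : S ⋙ H ≅ 𝟭 C := Pool.Agent.T2H69.TT.singleHomologyIso
  have hfull : S.Full := inferInstanceAs (ObjectProperty.lift _ (singleFunctor C 0)
    (bounded_single C)).Full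
  have hfaith : S.Faithful := inferInstanceAs (ObjectProperty.lift _ (singleFunctor C 0)
    (bounded_single C)).Faithful
  have hZ : ¬ IsZero (S.obj P) := by
    intro h0
    apply hP
    have h1 : (𝟙 P) = 0 := by
      apply S.map_injective
      exact h0.eq_of_src _ _
    exact (IsZero.iff_id_eq_zero _).2 h1
  refine ⟨S.obj P, hZ, ?_⟩
  have hHz : H.PreservesZeroMorphisms := inferInstance
  by_cases hg : H.map g = 0
  · right
    refine Pool.Agent.T2H69.TT.whiskerRight_eq_zero S H ?_ g hg P
    intro P' hP' Y' φ hφ
    have h1 : φ.hom = 0 := Pool.Agent.T2H69.TT.eq_zero_of_projective P' φ.hom hφ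
    exact ObjectProperty.hom_ext _ h1
  · left
    refine Pool.Agent.T2H69.TT.whiskerRight_eq_zero_of_tensor S H e ?_ hidem f g hfg hg P
    intro I hI Y' ψ
    obtain ⟨r, hr⟩ := Pool.Agent.T2H69.TT.exists_map_of_injective I ψ
    exact ⟨ObjectProperty.homMk r, hr⟩

end Pool.Agent.Results.MP_93437d_al.TensorVanishing
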